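import Pool.Agent.Lib_helper9.FPP.Defs

/-! # Blocks FIN-BIN and FIN-CORE of MP_a5a93b_pr -/

set_option autoImplicit false

open scoped BigOperators

namespace Pool.Agent.Lib_helper9.FPP

section FIN
variable {I Lam ι : Type*} [Fintype I] [DecidableEq I] [Fintype Lam] [DecidableEq Lam]

/-- one coordinate of the kernel -/
private def kf (z : Lam) (δ : ℝ) (S : Finset I) (lam : I → Lam) (i : I) (a : Lam) : ℝ :=
  if i ∈ S then (if a = lam i then 1 - δ else 0) + (if a = z then δ else 0)
    else (if a = lam i then 1 else 0)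

omit [Fintype Lam] in
private theorem Ker_eq (z : Lam) (δ : ℝ) (S : Finset I) (lam lam' : I → Lam) :
    Ker z δ S lam lam' = ∏ i, kf z δ S lam i (lam' i) := rfl

omit [Fintype I] [Fintype Lam] in
private theorem kf_nonneg (z : Lam) (δ : ℝ) (hδ0 : 0 < δ) (hδ1 : δ ≤ 1) (S : Finset I)
    (lam : I → Lam) (i : I) (a : Lam) : 0 ≤ kf z δ S lam i a := by
  unfold kf
  split_ifs <;> linarith

omit [Fintype Lam] in
theorem Ker_nonneg_bin (z : Lam) (δ : ℝ) (hδ0 : 0 < δ) (hδ1 : δ ≤ 1) (S : Finset I)
    (lam lam' : I → Lam) : 0 ≤ Ker z δ S lam lam' := by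
  rw [Ker_eq]
  exact Finset.prod_nonneg (fun i _ => kf_nonneg z δ hδ0 hδ1 S lam i _)

private theorem sum_prod_pi (f : I → Lam → ℝ) :
    ∑ lam' : I → Lam, ∏ i, f i (lam' i) = ∏ i, ∑ a, f i a := by
  rw [Finset.prod_univ_sum, Fintype.piFinset_univ]

omit [Fintype I] in
private theorem kf_sum (z : Lam) (δ : ℝ) (S : Finset I) (lam : I → Lam) (i : I) :
    ∑ a, kf z δ S lam i a = 1 := by
  unfold kf
  by_cases hi : i ∈ S
  · simp only [hi, if_true]
    rw [Finset.sum_add_distrib]
    simp
  · simp [hi]

omit [Fintype I] in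
private theorem kf_sum_half (z : Lam) (δ : ℝ) (hδ0 : 0 < δ) (hδ1 : δ ≤ 1) (S : Finset I)
    (lam : I → Lam) (i : I) (hi : i ∈ S) :
    ∑ a, kf z δ S lam i a * (if a = z then 1 / 2 else 1) ≤ 1 - δ / 2 := by
  unfold kf
  simp only [hi, if_true]
  have e : ∀ a : Lam, ((if a = lam i then 1 - δ else 0) + (if a = z then δ else 0)) *
      (if a = z then (1 / 2 : ℝ) else 1) ≤
      (if a = lam i then 1 - δ else 0) + (if a = z then δ / 2 else 0) := by
    intro a
    split_ifs <;> linarith
  refine (Finset.sum_le_sum (fun a _ => e a)).trans ?_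
  rw [Finset.sum_add_distrib]
  simp
  linarith

/-- FIN-BIN: total mass of the kernel and lower tail of the number of modified coordinates. -/
theorem fin_BIN_proof (z : Lam) (δ : ℝ) (hδ0 : 0 < δ) (hδ1 : δ ≤ 1) (S D : Finset I) (hD : D ⊆ S)
    (h : ℝ) (hDh : h ≤ (D.card : ℝ)) (hh : 8 ≤ δ * h) (lam : I → Lam) :
    (∑ lam' : I → Lam, Ker z δ S lam lam' = 1) ∧
    ∑ lam' : I → Lam, (if ((D.filter (fun i => lam' i = z)).card : ℝ) < δ * h / 2 then
      Ker z δ S lam lam' else 0) ≤ 1 / 2 := by
  constructor
  · simp only [Ker_eq]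
    rw [sum_prod_pi]
    exact Finset.prod_eq_one (fun i _ => kf_sum z δ S lam i)
  · have hlog2 : 0 < Real.log 2 := Real.log_pos (by norm_num)
    -- the weights
    have e1 : ∀ lam' : I → Lam, (if ((D.filter (fun i => lam' i = z)).card : ℝ) < δ * h / 2 then
        Ker z δ S lam lam' else 0) ≤
        Real.exp (Real.log 2 * (δ * h / 2)) *
          ∏ i, (kf z δ S lam i (lam' i) * (if i ∈ D then (if lam' i = z then 1 / 2 else 1) else 1)) := by
      intro lam'
      have hk := Ker_nonneg_bin z δ hδ0 hδ1 S lam lam'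
      rw [Finset.prod_mul_distrib, ← Ker_eq]
      have hp : (∏ i, (if i ∈ D then (if lam' i = z then (1 / 2 : ℝ) else 1) else 1)) =
          (1 / 2) ^ (D.filter (fun i => lam' i = z)).card := by
        rw [Finset.prod_ite_mem, Finset.univ_inter, Finset.prod_ite, Finset.prod_const,
          Finset.prod_const_one, mul_one]
      rw [hp]
      set N := (D.filter (fun i => lam' i = z)).card
      have hN : ((1 : ℝ) / 2) ^ N = Real.exp (-(Real.log 2 * N)) := by
        rw [one_div, ← Real.exp_log (show (0 : ℝ) < 2⁻¹ by norm_num), Real.log_inv,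
          ← Real.exp_nat_mul]
        congr 1; ring
      split_ifs with hlt
      · have : (1 : ℝ) ≤ Real.exp (Real.log 2 * (δ * h / 2)) * (1 / 2) ^ N := by
          rw [hN, ← Real.exp_add]
          apply Real.one_le_exp
          nlinarith
        calc Ker z δ S lam lam' = Ker z δ S lam lam' * 1 := (mul_one _).symm
          _ ≤ Ker z δ S lam lam' * (Real.exp (Real.log 2 * (δ * h / 2)) * (1 / 2) ^ N) := by gcongr
          _ = _ := by ring
      · positivity
    refine (Finset.sum_le_sum (fun lam' _ => e1 lam')).trans ?_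
    rw [← Finset.mul_sum, sum_prod_pi
      (fun i a => kf z δ S lam i a * (if i ∈ D then (if a = z then 1 / 2 else 1) else 1))]
    have e2 : ∏ i, ∑ a, kf z δ S lam i a * (if i ∈ D then (if a = z then (1 / 2 : ℝ) else 1) else 1) ≤
        ∏ i, (if i ∈ D then 1 - δ / 2 else 1) := by
      apply Finset.prod_le_prod
      · intro i _
        apply Finset.sum_nonneg
        intro a _
        apply mul_nonneg (kf_nonneg z δ hδ0 hδ1 S lam i a)
        split_ifs <;> norm_num
      · intro i _
        by_cases hi : i ∈ D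
        · simp only [hi, if_true]
          exact kf_sum_half z δ hδ0 hδ1 S lam i (hD hi)
        · simp only [hi, if_false, mul_one]
          exact (kf_sum z δ S lam i).le
    have e3 : ∏ i, (if i ∈ D then 1 - δ / 2 else 1) = (1 - δ / 2) ^ D.card := by
      rw [Finset.prod_ite_mem, Finset.univ_inter, Finset.prod_const]
    have e4 : (1 - δ / 2) ^ D.card ≤ Real.exp (-(δ * h / 2)) := by
      have f1 : 1 - δ / 2 ≤ Real.exp (-(δ / 2)) := by
        have := Real.add_one_le_exp (-(δ / 2))
        linarith
      calc (1 - δ / 2) ^ D.card ≤ (Real.exp (-(δ / 2))) ^ D.card :=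
            pow_le_pow_left₀ (by linarith) f1 _
        _ = Real.exp (-(δ / 2) * D.card) := by rw [← Real.exp_nat_mul]; congr 1; ring
        _ ≤ Real.exp (-(δ * h / 2)) := by
            apply Real.exp_le_exp.2
            nlinarith
    calc Real.exp (Real.log 2 * (δ * h / 2)) * _
        ≤ Real.exp (Real.log 2 * (δ * h / 2)) * Real.exp (-(δ * h / 2)) := by
          apply mul_le_mul_of_nonneg_left _ (Real.exp_pos _).le
          exact (e2.trans_eq e3).trans e4
      _ = Real.exp (-((1 - Real.log 2) * (δ * h / 2))) := by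
          rw [← Real.exp_add]; congr 1; ring
      _ ≤ Real.exp (-1) := by
          apply Real.exp_le_exp.2
          have : Real.log 2 < 0.7 := by
            have := Real.log_two_lt_d9
            linarith
          nlinarith
      _ ≤ 1 / 2 := by
          have h1 : (2 : ℝ) ≤ Real.exp 1 := by
            have := Real.add_one_le_exp (1 : ℝ)
            linarith
          rw [Real.exp_neg, one_div]
          exact inv_anti₀ (by norm_num) h1

end FIN

end Pool.Agent.Lib_helper9.FPP
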