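import Pool.Agent.Lib_helper9.FPP.PercDefs

/-! # Block CHAIN of MP_a5a93b_pr: `φ_p(S) < 1` implies that far points are separated by many
closed edges (exploration of the cluster of the origin inside `S`; no BK inequality needed). -/

set_option autoImplicit false

open MeasureTheory ProbabilityTheory
open scoped BigOperators

namespace Pool.Agent.Lib_helper9.FPP
namespace Chain

variable {d : ℕ}

/-- σ-algebra of one coordinate -/
@[reducible] def mc (e : ZEdge d) : MeasurableSpace (ZEdge d → Bool) :=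
  MeasurableSpace.comap (fun ω : ZEdge d → Bool => ω e) inferInstance

theorem mc_le (e : ZEdge d) : mc e ≤ (inferInstance : MeasurableSpace (ZEdge d → Bool)) :=
  (measurable_pi_apply e).comap_le

theorem iIndep_mc (p : unitInterval) : iIndep (mc (d := d)) (percMeasure d p) := by
  have := iIndepFun_infinitePi (P := fun _ : ZEdge d => bern p) (X := fun _ b => b)
    (fun _ => measurable_id)
  exact this

theorem sup_le (T : Set (ZEdge d)) :
    (⨆ e ∈ T, mc e) ≤ (inferInstance : MeasurableSpace (ZEdge d → Bool)) :=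
  iSup₂_le (fun e _ => mc_le e)

instance (p : unitInterval) : IsProbabilityMeasure (percMeasure d p) := by
  unfold percMeasure; infer_instance

theorem indep_prod (p : unitInterval) {T1 T2 : Set (ZEdge d)} (h : Disjoint T1 T2)
    {A B : Set (ZEdge d → Bool)} (hA : MeasurableSet[⨆ e ∈ T1, mc e] A)
    (hB : MeasurableSet[⨆ e ∈ T2, mc e] B) :
    (percMeasure d p).real (A ∩ B) = (percMeasure d p).real A * (percMeasure d p).real B := by
  have := indep_iSup_of_disjoint (fun e => mc_le e) (iIndep_mc (d := d) p) h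
  rw [Indep_iff] at this
  have := this A B hA hB
  rw [measureReal_def, this, ENNReal.toReal_mul]
  rfl

theorem meas_of_dep (Λ : Finset (ZEdge d)) (T : Set (ZEdge d)) (hΛ : ∀ e ∈ Λ, e ∈ T)
    (A : Set (ZEdge d → Bool))
    (hA : ∀ ω ω' : ZEdge d → Bool, (∀ e ∈ Λ, ω e = ω' e) → ω ∈ A → ω' ∈ A) :
    MeasurableSet[⨆ e ∈ T, mc e] A := by
  have hAeq : A = ⋃ η ∈ {η : Λ → Bool | ∃ ω ∈ A, ∀ e : Λ, ω e = η e},
      ⋂ e : Λ, {ω : ZEdge d → Bool | ω e = η e} := by
    ext ω
    simp only [Set.mem_iUnion, Set.mem_iInter, Set.mem_ofPred_eq, exists_prop]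
    constructor
    · intro h
      exact ⟨fun e => ω e, ⟨ω, h, fun _ => rfl⟩, fun _ => rfl⟩
    · rintro ⟨η, ⟨ω', h', h1⟩, h2⟩
      refine hA ω' ω ?_ h'
      intro e he
      rw [h1 ⟨e, he⟩, h2 ⟨e, he⟩]
  rw [hAeq]
  refine MeasurableSet.biUnion (Set.to_countable _) ?_
  intro η _
  refine MeasurableSet.iInter ?_
  intro e
  have h1 : MeasurableSet[mc e.1] {ω : ZEdge d → Bool | ω e = η e} := ⟨{η e}, trivial, rfl⟩
  exact (le_iSup₂_of_le (f := fun e (_ : e ∈ T) => mc e) e.1 (hΛ e.1 e.2) le_rfl) _ h1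

/-! ### walks -/

theorem endpt_append (x : Fin d → ℤ) (l1 l2 : List (Step d)) :
    endpt x (l1 ++ l2) = endpt (endpt x l1) l2 := by
  induction l1 generalizing x with
  | nil => rfl
  | cons s l ih => exact ih _

theorem zwalkEdges_append (x : Fin d → ℤ) (l1 l2 : List (Step d)) :
    zwalkEdges x (l1 ++ l2) = zwalkEdges x l1 ++ zwalkEdges (endpt x l1) l2 := by
  induction l1 generalizing x with
  | nil => rfl
  | cons s l ih =>
    show zedgeOf x s :: zwalkEdges (x + stepVec s) (l ++ l2) = _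
    rw [ih]
    rfl

/-- the walk `(x, l)` avoids `C` -/
def Av (C : Finset (Fin d → ℤ)) : (Fin d → ℤ) → List (Step d) → Prop
  | x, [] => x ∉ C
  | x, s :: l => x ∉ C ∧ Av C (x + stepVec s) l

theorem Av.head {C : Finset (Fin d → ℤ)} {x : Fin d → ℤ} {l : List (Step d)} (h : Av C x l) :
    x ∉ C := by
  cases l with
  | nil => exact h
  | cons s l => exact h.1

theorem decomp (C : Finset (Fin d → ℤ)) (x : Fin d → ℤ) (l : List (Step d))
    (h : endpt x l ∉ C) : Av C x l ∨ ∃ l1 s l2, l = l1 ++ s :: l2 ∧ endpt x l1 ∈ C ∧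
      Av C (endpt x l1 + stepVec s) l2 := by
  induction l generalizing x with
  | nil => exact Or.inl h
  | cons s l ih =>
    rcases ih (x + stepVec s) h with h1 | ⟨l1, s', l2, h1, h2, h3⟩
    · by_cases hx : x ∈ C
      · exact Or.inr ⟨[], s, l, rfl, hx, h1⟩
      · exact Or.inl ⟨hx, h1⟩
    · refine Or.inr ⟨s :: l1, s', l2, ?_, h2, h3⟩
      rw [h1]; rfl

/-- the edge `e` touches `C` -/
def Touch (C : Finset (Fin d → ℤ)) (e : ZEdge d) : Prop :=
  e.1 ∈ C ∨ e.1 + Pi.single e.2 1 ∈ C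

theorem touch_zedgeOf (C : Finset (Fin d → ℤ)) (x : Fin d → ℤ) (s : Step d) :
    Touch C (zedgeOf x s) ↔ x ∈ C ∨ x + stepVec s ∈ C := by
  obtain ⟨i, b⟩ := s
  unfold Touch zedgeOf stepBase stepVec
  cases b
  · simp only [Bool.false_eq_true, if_false]
    rw [add_assoc, ← Pi.single_add]
    simp only [neg_add_cancel, Pi.single_zero, add_zero]
    exact or_comm
  · simp only [if_true]

theorem Av.not_touch {C : Finset (Fin d → ℤ)} {x : Fin d → ℤ} {l : List (Step d)}
    (h : Av C x l) : ∀ e ∈ zwalkEdges x l, ¬ Touch C e := by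
  induction l generalizing x with
  | nil => intro e he; simp [zwalkEdges] at he
  | cons s l ih =>
    intro e he
    rcases List.mem_cons.1 he with rfl | he
    · rw [touch_zedgeOf]
      rintro (h1 | h1)
      · exact h.1 h1
      · exact h.2.head h1
    · exact ih h.2 e he

theorem openAdj_step {ω : ZEdge d → Bool} {x : Fin d → ℤ} {s : Step d}
    (h : ω (zedgeOf x s) = true) : OpenAdj ω x (x + stepVec s) := by
  obtain ⟨i, b⟩ := s
  cases b
  · refine ⟨i, Or.inr ⟨?_, ?_⟩⟩
    · unfold stepVec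
      simp only [Bool.false_eq_true, if_false]
      rw [add_assoc, ← Pi.single_add]
      simp
    · simpa [zedgeOf, stepBase] using h
  · exact ⟨i, Or.inl ⟨by simp [stepVec], by simpa [zedgeOf, stepBase] using h⟩⟩

open Classical in
/-- cluster of `0` inside `S` -/
noncomputable def cl (S : Finset (Fin d → ℤ)) (ω : ZEdge d → Bool) : Finset (Fin d → ℤ) :=
  S.filter (fun y => ConnIn (S : Set (Fin d → ℤ)) ω 0 y)

theorem mem_cl {S : Finset (Fin d → ℤ)} {ω : ZEdge d → Bool} {y : Fin d → ℤ} :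
    y ∈ cl S ω ↔ y ∈ S ∧ ConnIn (S : Set (Fin d → ℤ)) ω 0 y := by
  unfold cl
  simp

open Classical in
/-- edges inside `S` touching `C` -/
noncomputable def inE (S C : Finset (Fin d → ℤ)) : Finset (ZEdge d) :=
  (S ×ˢ Finset.univ).filter (fun e => e.1 + Pi.single e.2 1 ∈ S ∧ Touch C e)

theorem mem_inE {S C : Finset (Fin d → ℤ)} {e : ZEdge d} :
    e ∈ inE S C ↔ e.1 ∈ S ∧ e.1 + Pi.single e.2 1 ∈ S ∧ Touch C e := by
  unfold inE
  simp

theorem openAdj_transfer {S C : Finset (Fin d → ℤ)} {ω ω' : ZEdge d → Bool}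
    (h : ∀ e ∈ inE S C, ω e = ω' e) {a b : Fin d → ℤ} (ha : a ∈ S) (hb : b ∈ S)
    (haC : a ∈ C) (hab : OpenAdj ω a b) : OpenAdj ω' a b := by
  obtain ⟨i, ⟨h1, h2⟩ | ⟨h1, h2⟩⟩ := hab
  · refine ⟨i, Or.inl ⟨h1, ?_⟩⟩
    rw [← h (a, i) (mem_inE.2 ⟨ha, by rw [← h1]; exact hb, Or.inl haC⟩)]
    exact h2
  · refine ⟨i, Or.inr ⟨h1, ?_⟩⟩
    rw [← h (b, i) (mem_inE.2 ⟨hb, by rw [← h1]; exact ha, Or.inr (by rw [← h1]; exact haC)⟩)]
    exact h2

theorem cl_dep {S C : Finset (Fin d → ℤ)} (h0 : 0 ∈ S) {ω ω' : ZEdge d → Bool}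
    (h : ∀ e ∈ inE S C, ω e = ω' e) (hC : cl S ω = C) : cl S ω' = C := by
  rw [← hC]
  have hmem : ∀ y, y ∈ S → Relation.ReflTransGen
      (fun a b => a ∈ (S : Set (Fin d → ℤ)) ∧ b ∈ (S : Set (Fin d → ℤ)) ∧ OpenAdj ω a b) 0 y →
      y ∈ C := by
    intro y hy hconn
    rw [← hC, mem_cl]
    exact ⟨hy, h0, hy, hconn⟩
  ext y
  rw [mem_cl, mem_cl]
  constructor
  · rintro ⟨hy, -, -, hconn⟩
    refine ⟨hy, h0, hy, ?_⟩
    induction hconn with
    | refl => exact Relation.ReflTransGen.refl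
    | tail hab hbc ih =>
      have hb := ih hbc.1
      exact hb.tail ⟨hbc.1, hbc.2.1, openAdj_transfer (fun e he => (h e he).symm) hbc.1 hbc.2.1
        (hmem _ hbc.1 hb) hbc.2.2⟩
  · rintro ⟨hy, -, -, hconn⟩
    refine ⟨hy, h0, hy, ?_⟩
    induction hconn with
    | refl => exact Relation.ReflTransGen.refl
    | tail hab hbc ih =>
      have hb := ih hbc.1
      exact hb.tail ⟨hbc.1, hbc.2.1, openAdj_transfer h hbc.1 hbc.2.1
        (hmem _ hbc.1 hab) hbc.2.2⟩

/-! ### events -/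

def Far (r : ℤ) (x : Fin d → ℤ) (l : List (Step d)) : Prop := ∃ α, r ≤ |endpt x l α - x α|

def Ev (z : Fin d → ℤ) (r h : ℤ) : Set (ZEdge d → Bool) :=
  {ω | ∃ l, Far r z l ∧ (closedCount ω z l : ℤ) ≤ h}

def EvA (C : Finset (Fin d → ℤ)) (z : Fin d → ℤ) (r h : ℤ) : Set (ZEdge d → Bool) :=
  {ω | ∃ l, Av C z l ∧ Far r z l ∧ (closedCount ω z l : ℤ) ≤ h}

theorem closedCount_dep {ω ω' : ZEdge d → Bool} {x : Fin d → ℤ} {l : List (Step d)}
    (h : ∀ e ∈ zwalkEdges x l, ω e = ω' e) : closedCount ω x l = closedCount ω' x l := by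
  unfold closedCount
  apply List.countP_congr
  intro e he
  rw [h e he]

open Classical in
theorem meas_EvA (C : Finset (Fin d → ℤ)) (z : Fin d → ℤ) (r h : ℤ) :
    MeasurableSet[⨆ e ∈ {e : ZEdge d | ¬ Touch C e}, mc e] (EvA C z r h) := by
  have : EvA C z r h = ⋃ l ∈ {l : List (Step d) | Av C z l ∧ Far r z l},
      {ω | (closedCount ω z l : ℤ) ≤ h} := by
    ext ω
    simp only [EvA, Set.mem_ofPred_eq, Set.mem_iUnion, exists_prop, and_assoc]
  rw [this]
  refine MeasurableSet.biUnion (Set.to_countable _) ?_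
  intro l hl
  refine meas_of_dep (zwalkEdges z l).toFinset _ ?_ _ ?_
  · intro e he
    exact hl.1.not_touch e (List.mem_toFinset.1 he)
  · intro ω ω' hω h1
    have : closedCount ω z l = closedCount ω' z l :=
      closedCount_dep (fun e he => hω e (List.mem_toFinset.2 he))
    simpa only [Set.mem_ofPred_eq, this] using h1

open Classical in
theorem meas_Ev (z : Fin d → ℤ) (r h : ℤ) : MeasurableSet (Ev z r h) := by
  have : Ev z r h = ⋃ l ∈ {l : List (Step d) | Far r z l},
      {ω | (closedCount ω z l : ℤ) ≤ h} := by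
    ext ω
    simp only [Ev, Set.mem_ofPred_eq, Set.mem_iUnion, exists_prop]
  rw [this]
  refine MeasurableSet.biUnion (Set.to_countable _) ?_
  intro l hl
  refine sup_le Set.univ _ (meas_of_dep (zwalkEdges z l).toFinset _ (fun _ _ => trivial) _ ?_)
  intro ω ω' hω h1
  have : closedCount ω z l = closedCount ω' z l :=
    closedCount_dep (fun e he => hω e (List.mem_toFinset.2 he))
  simpa only [Set.mem_ofPred_eq, this] using h1

theorem meas_cl (S C : Finset (Fin d → ℤ)) (h0 : 0 ∈ S) :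
    MeasurableSet[⨆ e ∈ {e : ZEdge d | e ∈ inE S C}, mc e] {ω | cl S ω = C} :=
  meas_of_dep (inE S C) _ (fun _ he => he) _ (fun _ _ hω h1 => cl_dep h0 hω h1)

theorem meas_open (e : ZEdge d) :
    MeasurableSet[⨆ e' ∈ ({e} : Set (ZEdge d)), mc e'] {ω | ω e = true} := by
  refine meas_of_dep {e} _ (fun e' he => by simpa using he) _ ?_
  intro ω ω' hω h1
  show ω' e = true
  rw [← hω e (Finset.mem_singleton_self e)]
  exact h1

theorem prob_open (p : unitInterval) (e : ZEdge d) :
    (percMeasure d p).real {ω | ω e = true} = p := by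
  have h1 : (percMeasure d p).map (fun ω => ω e) = bern p :=
    Measure.infinitePi_map_eval (fun _ : ZEdge d => bern p) e
  have h2 : (percMeasure d p) {ω | ω e = true} = bern p {true} := by
    rw [← h1, Measure.map_apply (measurable_pi_apply e) (MeasurableSet.singleton _)]
    rfl
  rw [measureReal_def, h2]
  simp [bern, p.2.1]

/-! ### translation -/

def shiftE (v : Fin d → ℤ) (e : ZEdge d) : ZEdge d := (e.1 + v, e.2)

def tau (v : Fin d → ℤ) (ω : ZEdge d → Bool) : ZEdge d → Bool := fun e => ω (shiftE v e)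

theorem shiftE_inj (v : Fin d → ℤ) : Function.Injective (shiftE v) := by
  rintro ⟨a, i⟩ ⟨b, j⟩ h
  simp only [shiftE, Prod.mk.injEq, add_left_inj] at h
  rw [h.1, h.2]

theorem map_tau (p : unitInterval) (v : Fin d → ℤ) :
    (percMeasure d p).map (tau v) = percMeasure d p :=
  Measure.map_infinitePi_infinitePi_of_inj (P := fun _ : ZEdge d => bern p) (shiftE_inj v)

theorem zedgeOf_shift (x v : Fin d → ℤ) (s : Step d) :
    zedgeOf (x + v) s = shiftE v (zedgeOf x s) := by
  unfold zedgeOf shiftE stepBase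
  split_ifs
  · rfl
  · rw [add_right_comm]

theorem zwalkEdges_shift (x v : Fin d → ℤ) (l : List (Step d)) :
    zwalkEdges (x + v) l = (zwalkEdges x l).map (shiftE v) := by
  induction l generalizing x with
  | nil => rfl
  | cons s l ih =>
    show zedgeOf (x + v) s :: zwalkEdges (x + v + stepVec s) l = _
    rw [add_right_comm, ih, zedgeOf_shift]
    rfl

theorem endpt_shift (x v : Fin d → ℤ) (l : List (Step d)) : endpt (x + v) l = endpt x l + v := by
  induction l generalizing x with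
  | nil => rfl
  | cons s l ih =>
    show endpt (x + v + stepVec s) l = _
    rw [add_right_comm, ih]
    rfl

theorem closedCount_shift (ω : ZEdge d → Bool) (x v : Fin d → ℤ) (l : List (Step d)) :
    closedCount ω (x + v) l = closedCount (tau v ω) x l := by
  unfold closedCount
  rw [zwalkEdges_shift, List.countP_map]
  rfl

theorem prob_Ev_shift (p : unitInterval) (z : Fin d → ℤ) (r h : ℤ) :
    (percMeasure d p).real (Ev z r h) = (percMeasure d p).real (Ev 0 r h) := by
  have hpre : tau z ⁻¹' (Ev 0 r h) = Ev z r h := by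
    ext ω
    simp only [Set.mem_preimage, Ev, Set.mem_ofPred_eq]
    constructor
    · rintro ⟨l, ⟨α, hα⟩, h2⟩
      refine ⟨l, ⟨α, ?_⟩, ?_⟩
      · have := endpt_shift 0 z l
        rw [zero_add] at this
        rw [this]
        simpa using hα
      · have := closedCount_shift ω 0 z l
        rw [zero_add] at this
        rw [this]; exact h2
    · rintro ⟨l, ⟨α, hα⟩, h2⟩
      refine ⟨l, ⟨α, ?_⟩, ?_⟩
      · have := endpt_shift 0 z l
        rw [zero_add] at this
        rw [this] at hα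
        simpa using hα
      · have := closedCount_shift ω 0 z l
        rw [zero_add] at this
        rw [← this]; exact h2
  have hm : Measurable (tau (d := d) z) :=
    measurable_pi_iff.2 (fun e => measurable_pi_apply _)
  conv_rhs => rw [← map_tau p z]
  rw [measureReal_def, measureReal_def, Measure.map_apply hm (meas_Ev 0 r h), hpre]

/-! ### the recursion -/

theorem incl (S : Finset (Fin d → ℤ)) (h0 : 0 ∈ S) (ρ : ℕ)
    (hρ : ∀ y ∈ S, ∀ α, |y α| + 1 ≤ (ρ : ℤ)) (m : ℕ) (h : ℤ) :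
    Ev 0 (((m + 1) * ρ : ℕ) : ℤ) h ⊆ ⋃ C ∈ S.powerset, ⋃ y ∈ C, ⋃ s ∈ (Finset.univ : Finset (Step d)),
      (({ω | cl S ω = C} ∩ EvA C (y + stepVec s) ((m * ρ : ℕ) : ℤ) (h - 1)) ∪
        (if y + stepVec s ∈ S then ∅ else
          ({ω | cl S ω = C} ∩ {ω | ω (zedgeOf y s) = true}) ∩
            EvA C (y + stepVec s) ((m * ρ : ℕ) : ℤ) h)) := by
  rintro ω ⟨l, ⟨α, hα⟩, hl⟩
  set C := cl S ω with hC
  have h0C : (0 : Fin d → ℤ) ∈ C := by
    rw [hC, mem_cl]
    exact ⟨h0, h0, h0, Relation.ReflTransGen.refl⟩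
  have hCS : C ⊆ S := fun y hy => (mem_cl.1 hy).1
  have hend : endpt 0 l ∉ C := by
    intro hmem
    have h1 := hρ _ (hCS hmem) α
    have h2 : ((ρ : ℕ) : ℤ) ≤ (((m + 1) * ρ : ℕ) : ℤ) := by
      exact_mod_cast Nat.le_mul_of_pos_left ρ (Nat.succ_pos m)
    simp only [Pi.zero_apply, sub_zero] at hα
    omega
  rcases decomp C 0 l hend with hav | ⟨l1, s, l2, hl12, hy, hav⟩
  · exact absurd h0C hav.head
  set y := endpt 0 l1 with hy'
  have hyS : y ∈ S := hCS hy
  have hcc : closedCount ω 0 l = closedCount ω 0 l1 +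
      ((if (!ω (zedgeOf y s)) = true then 1 else 0) + closedCount ω (y + stepVec s) l2) := by
    unfold closedCount
    rw [hl12, zwalkEdges_append, List.countP_append, ← hy']
    congr 1
    show List.countP _ (zedgeOf y s :: zwalkEdges (y + stepVec s) l2) = _
    rw [List.countP_cons, add_comm]
  have hendl : endpt 0 l = endpt (y + stepVec s) l2 := by
    rw [hl12, endpt_append]
    rfl
  have hfar : Far ((m * ρ : ℕ) : ℤ) (y + stepVec s) l2 := by
    refine ⟨α, ?_⟩
    rw [← hendl]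
    have h1 := hρ y hyS α
    have h2 : |stepVec s α| ≤ 1 := by
      unfold stepVec
      split_ifs
      · by_cases hi : α = s.1
        · subst hi; simp
        · simp [Pi.single_eq_of_ne hi]
      · by_cases hi : α = s.1
        · subst hi; simp
        · simp [Pi.single_eq_of_ne hi]
    have h3 : (((m + 1) * ρ : ℕ) : ℤ) = ((m * ρ : ℕ) : ℤ) + ρ := by push_cast; ring
    rw [h3] at hα
    simp only [Pi.zero_apply, sub_zero] at hα
    have h4 : |endpt 0 l α| ≤ |endpt 0 l α - (y + stepVec s) α| + |(y + stepVec s) α| := by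
      have := abs_add_le (endpt 0 l α - (y + stepVec s) α) ((y + stepVec s) α)
      simpa using this
    have h5 : |(y + stepVec s) α| ≤ |y α| + |stepVec s α| := abs_add_le _ _
    omega
  simp only [Set.mem_iUnion, exists_prop]
  refine ⟨C, Finset.mem_powerset.2 hCS, y, hy, s, Finset.mem_univ _, ?_⟩
  by_cases ho : ω (zedgeOf y s) = true
  · right
    have hz : y + stepVec s ∉ S := by
      intro hzS
      apply hav.head
      rw [hC, mem_cl]
      have hyc := (mem_cl.1 (hC ▸ hy)).2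
      refine ⟨hzS, h0, hzS, hyc.2.2.tail ⟨hyS, hzS, openAdj_step ho⟩⟩
    rw [if_neg hz]
    refine ⟨⟨rfl, ho⟩, l2, hav, hfar, ?_⟩
    simp only [ho, Bool.not_true, Bool.false_eq_true, if_false, zero_add] at hcc
    rw [hcc] at hl
    push_cast at hl
    omega
  · left
    refine ⟨rfl, l2, hav, hfar, ?_⟩
    have ho' : (!ω (zedgeOf y s)) = true := by simpa using ho
    rw [if_pos ho'] at hcc
    rw [hcc] at hl
    push_cast at hl
    omega

theorem EvA_sub (C : Finset (Fin d → ℤ)) (z : Fin d → ℤ) (r h : ℤ) : EvA C z r h ⊆ Ev z r h := by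
  rintro ω ⟨l, -, h1, h2⟩
  exact ⟨l, h1, h2⟩

theorem sum_cl (p : unitInterval) (S : Finset (Fin d → ℤ)) (h0 : 0 ∈ S) (y : Fin d → ℤ)
    (hy : y ∈ S) :
    ∑ C ∈ S.powerset, (if y ∈ C then (percMeasure d p).real {ω | cl S ω = C} else 0) =
      (percMeasure d p).real {ω | ConnIn (S : Set (Fin d → ℤ)) ω 0 y} := by
  rw [← Finset.sum_filter]
  have hset : {ω : ZEdge d → Bool | ConnIn (S : Set (Fin d → ℤ)) ω 0 y} =
      ⋃ C ∈ S.powerset.filter (fun C => y ∈ C), {ω | cl S ω = C} := by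
    ext ω
    simp only [Set.mem_ofPred_eq, Set.mem_iUnion, Finset.mem_filter, Finset.mem_powerset,
      exists_prop]
    constructor
    · intro h
      exact ⟨cl S ω, ⟨fun z hz => (mem_cl.1 hz).1, mem_cl.2 ⟨hy, h⟩⟩, rfl⟩
    · rintro ⟨C, ⟨-, hC⟩, rfl⟩
      exact (mem_cl.1 hC).2
  rw [hset, measureReal_biUnion_finset]
  · intro C _ C' _ hne
    refine Set.disjoint_left.2 ?_
    intro ω h1 h2
    exact hne (h1.symm.trans h2)
  · intro C _
    exact sup_le _ _ (meas_cl S C h0)

theorem recursion (p : unitInterval) (S : Finset (Fin d → ℤ)) (h0 : 0 ∈ S) (ρ : ℕ)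
    (hρ : ∀ y ∈ S, ∀ α, |y α| + 1 ≤ (ρ : ℤ)) (m : ℕ) (h : ℤ) :
    (percMeasure d p).real (Ev 0 (((m + 1) * ρ : ℕ) : ℤ) h) ≤
      phi p S * (percMeasure d p).real (Ev 0 ((m * ρ : ℕ) : ℤ) h) +
      (S.card * Fintype.card (Step d) : ℕ) *
        (percMeasure d p).real (Ev 0 ((m * ρ : ℕ) : ℤ) (h - 1)) := by
  set μ := percMeasure d p with hμ
  set a : ℤ → ℝ := fun h => μ.real (Ev 0 ((m * ρ : ℕ) : ℤ) h) with ha
  have ha0 : ∀ h, 0 ≤ a h := fun h => measureReal_nonneg
  have hA : ∀ C z h, μ.real (EvA C z ((m * ρ : ℕ) : ℤ) h) ≤ a h := by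
    intro C z h
    have h1 : μ.real (EvA C z ((m * ρ : ℕ) : ℤ) h) ≤ μ.real (Ev z ((m * ρ : ℕ) : ℤ) h) :=
      measureReal_mono (EvA_sub C z _ h)
    exact h1.trans_eq (prob_Ev_shift p z _ h)
  have step1 : μ.real (Ev 0 (((m + 1) * ρ : ℕ) : ℤ) h) ≤
      ∑ C ∈ S.powerset, ∑ y ∈ C, ∑ s : Step d,
        (μ.real {ω | cl S ω = C} * a (h - 1) +
          (if y + stepVec s ∈ S then 0 else μ.real {ω | cl S ω = C} * p * a h)) := by
    refine (measureReal_mono (incl S h0 ρ hρ m h) (measure_ne_top _ _)).trans ?_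
    refine (measureReal_biUnion_finset_le _ _).trans (Finset.sum_le_sum ?_)
    intro C hC
    refine (measureReal_biUnion_finset_le _ _).trans (Finset.sum_le_sum ?_)
    intro y hy
    refine (measureReal_biUnion_finset_le _ _).trans (Finset.sum_le_sum ?_)
    intro s _
    refine (measureReal_union_le _ _).trans (add_le_add ?_ ?_)
    · rw [indep_prod p (T1 := {e | e ∈ inE S C}) (T2 := {e | ¬ Touch C e}) ?_ (meas_cl S C h0)
        (meas_EvA C _ _ _)]
      · exact mul_le_mul_of_nonneg_left (hA C _ _) measureReal_nonneg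
      · refine Set.disjoint_left.2 ?_
        intro e he he'
        exact he' (mem_inE.1 he).2.2
    · split_ifs with hz
      · simp
      · have hm1 : MeasurableSet[⨆ e ∈ {e : ZEdge d | Touch C e}, mc e]
            ({ω | cl S ω = C} ∩ {ω | ω (zedgeOf y s) = true}) := by
          refine MeasurableSet.inter ?_ ?_
          · refine meas_of_dep (inE S C) _ (fun e he => (mem_inE.1 he).2.2) _
              (fun _ _ hω h1 => cl_dep h0 hω h1)
          · refine meas_of_dep {zedgeOf y s} _ (fun e' he => ?_) _ ?_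
            · rw [Finset.mem_singleton.1 he]
              exact (touch_zedgeOf C y s).2 (Or.inl hy)
            · intro ω ω' hω h1
              show ω' _ = true
              rw [← hω _ (Finset.mem_singleton_self _)]
              exact h1
        have hdisj1 : Disjoint {e : ZEdge d | Touch C e} {e : ZEdge d | ¬ Touch C e} :=
          Set.disjoint_left.2 (fun e he he' => he' he)
        rw [indep_prod p hdisj1 hm1 (meas_EvA C _ _ _)]
        have hdisj2 : Disjoint {e : ZEdge d | e ∈ inE S C} {zedgeOf y s} := by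
          refine Set.disjoint_left.2 ?_
          intro e he he'
          rw [Set.mem_singleton_iff.1 he'] at he
          have h1 := mem_inE.1 he
          have hCS : C ⊆ S := Finset.mem_powerset.1 hC
          apply hz
          obtain ⟨i, b⟩ := s
          cases b
          · simpa [zedgeOf, stepBase] using h1.1
          · simpa [zedgeOf, stepBase, stepVec] using h1.2.1
        rw [indep_prod p hdisj2 (meas_cl S C h0) (meas_open _), prob_open]
        exact mul_le_mul_of_nonneg_left (hA C _ _) (mul_nonneg measureReal_nonneg p.2.1)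
  have step2 : ∑ C ∈ S.powerset, ∑ y ∈ C, ∑ s : Step d,
        (μ.real {ω | cl S ω = C} * a (h - 1) +
          (if y + stepVec s ∈ S then 0 else μ.real {ω | cl S ω = C} * p * a h)) =
      ∑ y ∈ S, ∑ s : Step d, (μ.real {ω | ConnIn (S : Set (Fin d → ℤ)) ω 0 y} *
        (a (h - 1) + (if y + stepVec s ∈ S then 0 else p * a h))) := by
    have e1 : ∀ C ∈ S.powerset, ∑ y ∈ C, ∑ s : Step d,
        (μ.real {ω | cl S ω = C} * a (h - 1) +
          (if y + stepVec s ∈ S then 0 else μ.real {ω | cl S ω = C} * p * a h)) =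
        ∑ y ∈ S, ∑ s : Step d, (if y ∈ C then μ.real {ω | cl S ω = C} else 0) *
          (a (h - 1) + (if y + stepVec s ∈ S then 0 else p * a h)) := by
      intro C hC
      have hCS : C ⊆ S := Finset.mem_powerset.1 hC
      have e2 : ∑ y ∈ S, ∑ s : Step d, (if y ∈ C then μ.real {ω | cl S ω = C} else 0) *
          (a (h - 1) + (if y + stepVec s ∈ S then 0 else p * a h)) =
          ∑ y ∈ C, ∑ s : Step d, (if y ∈ C then μ.real {ω | cl S ω = C} else 0) *
          (a (h - 1) + (if y + stepVec s ∈ S then 0 else p * a h)) := by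
        symm
        apply Finset.sum_subset hCS
        intro y _ hy
        simp [hy]
      rw [e2]
      apply Finset.sum_congr rfl
      intro y hy
      apply Finset.sum_congr rfl
      intro s _
      rw [if_pos hy]
      split_ifs
      · ring
      · ring
    rw [Finset.sum_congr rfl e1, Finset.sum_comm]
    apply Finset.sum_congr rfl
    intro y hy
    rw [Finset.sum_comm]
    apply Finset.sum_congr rfl
    intro s _
    rw [← Finset.sum_mul, sum_cl p S h0 y hy]
  rw [step2] at step1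
  refine step1.trans ?_
  have e3 : ∑ y ∈ S, ∑ s : Step d, (μ.real {ω | ConnIn (S : Set (Fin d → ℤ)) ω 0 y} *
        (a (h - 1) + (if y + stepVec s ∈ S then 0 else p * a h))) =
      phi p S * a h +
        ∑ y ∈ S, ∑ _s : Step d, μ.real {ω | ConnIn (S : Set (Fin d → ℤ)) ω 0 y} * a (h - 1) := by
    unfold phi
    rw [Finset.sum_mul, ← Finset.sum_add_distrib]
    apply Finset.sum_congr rfl
    intro y hy
    rw [Finset.sum_mul, ← Finset.sum_add_distrib]
    apply Finset.sum_congr rfl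
    intro s _
    split_ifs
    · ring
    · ring
  rw [e3]
  refine add_le_add le_rfl ?_
  have e4 : ∑ y ∈ S, ∑ _s : Step d, μ.real {ω | ConnIn (S : Set (Fin d → ℤ)) ω 0 y} * a (h - 1) ≤
      ∑ y ∈ S, ∑ _s : Step d, a (h - 1) := by
    apply Finset.sum_le_sum
    intro y _
    apply Finset.sum_le_sum
    intro s _
    calc _ ≤ 1 * a (h - 1) := mul_le_mul_of_nonneg_right measureReal_le_one (ha0 _)
      _ = a (h - 1) := one_mul _
  refine e4.trans_eq ?_
  show _ = ((S.card * Fintype.card (Step d) : ℕ) : ℝ) * a (h - 1)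
  simp only [Finset.sum_const, Finset.card_univ, nsmul_eq_mul]
  push_cast
  ring

theorem phi_nonneg (p : unitInterval) (S : Finset (Fin d → ℤ)) : 0 ≤ phi p S := by
  unfold phi
  apply Finset.sum_nonneg
  intro y _
  apply Finset.sum_nonneg
  intro s _
  split_ifs
  · exact le_rfl
  · exact mul_nonneg p.2.1 measureReal_nonneg

theorem bound (p : unitInterval) (S : Finset (Fin d → ℤ)) (h0 : 0 ∈ S) (ρ : ℕ)
    (hρ : ∀ y ∈ S, ∀ α, |y α| + 1 ≤ (ρ : ℤ)) (r Z : ℝ) (hr0 : 0 < r) (hZ : 1 ≤ Z)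
    (hrZ : phi p S + (S.card * Fintype.card (Step d) : ℕ) / Z ≤ r) (m : ℕ) :
    ∀ h : ℤ, (percMeasure d p).real (Ev 0 ((m * ρ : ℕ) : ℤ) h) ≤ Z ^ h * r ^ m := by
  have hZ0 : 0 < Z := by linarith
  induction m with
  | zero =>
    intro h
    rw [pow_zero, mul_one]
    by_cases hh : 0 ≤ h
    · exact measureReal_le_one.trans (one_le_zpow₀ hZ hh)
    · have : Ev (d := d) 0 ((0 * ρ : ℕ) : ℤ) h = ∅ := by
        rw [Set.eq_empty_iff_forall_notMem]
        rintro ω ⟨l, -, hl⟩
        omega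
      rw [this, measureReal_empty]
      positivity
  | succ m ih =>
    intro h
    refine (recursion p S h0 ρ hρ m h).trans ?_
    have h1 := mul_le_mul_of_nonneg_left (ih h) (phi_nonneg p S)
    have h2 := mul_le_mul_of_nonneg_left (ih (h - 1))
      (show (0 : ℝ) ≤ (S.card * Fintype.card (Step d) : ℕ) by positivity)
    have h3 : Z ^ (h - 1) = Z ^ h / Z := by
      rw [zpow_sub_one₀ hZ0.ne', div_eq_mul_inv]
    rw [h3] at h2
    calc _ ≤ phi p S * (Z ^ h * r ^ m) +
          (S.card * Fintype.card (Step d) : ℕ) * (Z ^ h / Z * r ^ m) := add_le_add h1 h2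
      _ = (phi p S + (S.card * Fintype.card (Step d) : ℕ) / Z) * (Z ^ h * r ^ m) := by ring
      _ ≤ r * (Z ^ h * r ^ m) := by
          apply mul_le_mul_of_nonneg_right hrZ
          positivity
      _ = Z ^ h * r ^ (m + 1) := by ring

end Chain

open Chain in
/-- CHAIN. -/
theorem chain_proof (d : ℕ) [NeZero d] (p : unitInterval) (S : Finset (Fin d → ℤ)) (h0 : 0 ∈ S)
    (hφ : phi p S < 1) :
    ∃ c C : ℝ, 0 < c ∧ c ≤ 1 ∧ 0 < C ∧ ∀ u : ℕ, 1 ≤ u →
      (percMeasure d p).real
        {ω | ∃ l : List (Step d), SAW 0 l ∧ (∃ α : Fin d, (u : ℤ) ≤ |endpt 0 l α|) ∧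
          (closedCount ω 0 l : ℝ) < c * u} ≤ C * Real.exp (-c * u) := by
  -- the radius
  obtain ⟨ρ, hρ⟩ : ∃ ρ : ℕ, ∀ y ∈ S, ∀ α : Fin d, |y α| + 1 ≤ (ρ : ℤ) := by
    refine ⟨∑ y ∈ S, ∑ α : Fin d, (|y α| + 1).toNat, ?_⟩
    intro y hy α
    have h1 : (|y α| + 1).toNat ≤ ∑ α : Fin d, (|y α| + 1).toNat :=
      Finset.single_le_sum (f := fun α => (|y α| + 1).toNat) (fun _ _ => Nat.zero_le _)
        (Finset.mem_univ α)
    have h2 : ∑ α : Fin d, (|y α| + 1).toNat ≤ ∑ y ∈ S, ∑ α : Fin d, (|y α| + 1).toNat :=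
      Finset.single_le_sum (f := fun y => ∑ α : Fin d, (|y α| + 1).toNat)
        (fun _ _ => Nat.zero_le _) hy
    have h3 : |y α| + 1 ≤ ((|y α| + 1).toNat : ℤ) := Int.self_le_toNat _
    have h4 : ((|y α| + 1).toNat : ℤ) ≤
        ((∑ y ∈ S, ∑ α : Fin d, (|y α| + 1).toNat : ℕ) : ℤ) := by
      exact_mod_cast h1.trans h2
    exact h3.trans h4
  have hρ1 : 1 ≤ ρ := by
    have := hρ 0 h0 0
    simp at this
    omega
  set B : ℝ := ((S.card * Fintype.card (Step d) : ℕ) : ℝ) with hB
  have hB0 : 0 ≤ B := by positivity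
  have hφ0 := phi_nonneg p S
  set r : ℝ := (1 + phi p S) / 2 with hr
  have hr0 : 0 < r := by rw [hr]; linarith
  have hr1 : r < 1 := by rw [hr]; linarith
  set Z : ℝ := 1 + B / ((1 - phi p S) / 2) with hZdef
  have hd0 : 0 < (1 - phi p S) / 2 := by linarith
  have hZ1 : 1 ≤ Z := by
    rw [hZdef]
    have : 0 ≤ B / ((1 - phi p S) / 2) := by positivity
    linarith
  have hZ0 : 0 < Z := by linarith
  have hrZ : phi p S + B / Z ≤ r := by
    have h1 : B / Z ≤ (1 - phi p S) / 2 := by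
      rw [div_le_iff₀ hZ0]
      have h2 : B = (1 - phi p S) / 2 * (B / ((1 - phi p S) / 2)) := by
        rw [mul_div_cancel₀ _ hd0.ne']
      have h3 : (1 - phi p S) / 2 * (B / ((1 - phi p S) / 2)) ≤ (1 - phi p S) / 2 * Z := by
        apply mul_le_mul_of_nonneg_left _ hd0.le
        rw [hZdef]; linarith
      linarith
    rw [hr]; linarith
  have hlogZ : 0 ≤ Real.log Z := Real.log_nonneg hZ1
  set lam : ℝ := - Real.log r with hlam
  have hlam0 : 0 < lam := by rw [hlam]; linarith [Real.log_neg hr0 hr1]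
  have hρpos : (0 : ℝ) < ρ := by exact_mod_cast hρ1
  set c : ℝ := min 1 (lam / (ρ * (Real.log Z + 1))) with hc
  have hc0 : 0 < c := lt_min one_pos (by positivity)
  have hc1 : c ≤ 1 := min_le_left _ _
  have hc2 : c * (Real.log Z + 1) ≤ lam / ρ := by
    have : c ≤ lam / (ρ * (Real.log Z + 1)) := min_le_right _ _
    calc c * (Real.log Z + 1) ≤ lam / (ρ * (Real.log Z + 1)) * (Real.log Z + 1) := by gcongr
      _ = lam / ρ := by field_simp
  refine ⟨c, r⁻¹, hc0, hc1, by positivity, ?_⟩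
  intro u hu
  set m := u / ρ with hm
  have hmu : m * ρ ≤ u := Nat.div_mul_le_self u ρ
  have hsub : {ω | ∃ l : List (Step d), SAW 0 l ∧ (∃ α : Fin d, (u : ℤ) ≤ |endpt 0 l α|) ∧
          (closedCount ω 0 l : ℝ) < c * u} ⊆ Ev 0 ((m * ρ : ℕ) : ℤ) ⌊c * u⌋ := by
    rintro ω ⟨l, -, ⟨α, hα⟩, hl⟩
    refine ⟨l, ⟨α, ?_⟩, ?_⟩
    · have : ((m * ρ : ℕ) : ℤ) ≤ (u : ℤ) := by exact_mod_cast hmu
      simpa using this.trans hα
    · rw [Int.le_floor]
      push_cast
      exact hl.le
  refine (measureReal_mono hsub).trans ((bound p S h0 ρ hρ r Z hr0 hZ1 hrZ m _).trans ?_)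
  have e1 : Z ^ (⌊c * u⌋ : ℤ) ≤ Real.exp (c * u * Real.log Z) := by
    rw [← Real.rpow_intCast, Real.rpow_def_of_pos hZ0]
    apply Real.exp_le_exp.2
    rw [mul_comm]
    exact mul_le_mul_of_nonneg_right (Int.floor_le _) hlogZ
  have e2 : r ^ m ≤ r⁻¹ * Real.exp (-(lam * (u / ρ))) := by
    have h1 : (u : ℝ) / ρ ≤ m + 1 := by
      rw [div_le_iff₀ hρpos]
      have : u < (m + 1) * ρ := by
        rw [hm, mul_comm]
        exact Nat.lt_mul_div_succ u (by omega)
      exact_mod_cast this.le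
    have h2 : r ^ m = r⁻¹ * Real.exp (-(lam * (m + 1))) := by
      have : Real.exp (-(lam * (m + 1))) = r ^ (m + 1) := by
        rw [hlam, ← Real.exp_log hr0, ← Real.exp_nat_mul, Real.log_exp]
        congr 1
        push_cast
        ring
      rw [this, pow_succ, mul_comm, mul_assoc, mul_inv_cancel₀ hr0.ne', mul_one]
    rw [h2]
    apply mul_le_mul_of_nonneg_left _ (by positivity)
    apply Real.exp_le_exp.2
    have := mul_le_mul_of_nonneg_left h1 hlam0.le
    linarith
  calc Z ^ (⌊c * u⌋ : ℤ) * r ^ m ≤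
        Real.exp (c * u * Real.log Z) * (r⁻¹ * Real.exp (-(lam * (u / ρ)))) := by
        apply mul_le_mul e1 e2 (by positivity) (Real.exp_pos _).le
    _ = r⁻¹ * Real.exp (c * u * Real.log Z - lam * (u / ρ)) := by
        rw [sub_eq_add_neg, Real.exp_add]; ring
    _ ≤ r⁻¹ * Real.exp (-c * u) := by
        apply mul_le_mul_of_nonneg_left _ (by positivity)
        apply Real.exp_le_exp.2
        have h1 : c * (Real.log Z + 1) * u ≤ lam / ρ * u := by gcongr
        have h2 : lam / ρ * u = lam * (u / ρ) := by ring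
        nlinarith

end Pool.Agent.Lib_helper9.FPP
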